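import Mathlib

/-!
MP_62401a_nt, Q1: a positive integer `n` with `4 * σ~(n) = n`.
-/

namespace Pool.Agent.Results.MP_62401a_nt.RatioFour

/-- `σ~(p^r) = ∑_{j=0}^{r} (-1)^j p^(r-j)`. -/
def alt (p r : ℕ) : ℤ := ∑ j ∈ Finset.range (r + 1), (-1 : ℤ) ^ j * (p : ℤ) ^ (r - j)

/-- `σ~(n) = ∏_{p^r ∥ n} σ~(p^r)`. -/
def tsigma (n : ℕ) : ℤ := n.factorization.prod alt

lemma alt_zero (p : ℕ) : alt p 0 = 1 := by simp [alt]

lemma tsigma_mul {p r m : ℕ} (hp : p.Prime) (h : ¬ p ∣ m) :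
    tsigma (p ^ r * m) = alt p r * tsigma m := by
  have hc : Nat.Coprime (p ^ r) m := Nat.Coprime.pow_left r ((Nat.Prime.coprime_iff_not_dvd hp).2 h)
  unfold tsigma
  rw [Nat.factorization_mul_of_coprime hc, Finsupp.prod_add_index_of_disjoint
    (by rw [Nat.support_factorization, Nat.support_factorization]; exact Nat.Coprime.disjoint_primeFactors hc), Nat.Prime.factorization_pow hp,
    Finsupp.prod_single_index (alt_zero p)]

lemma tsigma_one : tsigma 1 = 1 := by simp [tsigma]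

/-- The number. -/
def N : ℕ := 2 ^ 21 * (3 ^ 8 * (5 ^ 3 * (7 ^ 1 * (11 ^ 3 * (13 ^ 1 * (19 ^ 1 * (23 ^ 1 *
  (31 ^ 1 * (37 ^ 1 * (61 ^ 1 * (89 ^ 1 * (683 ^ 1 * 1))))))))))))

lemma tsigma_N : 4 * tsigma N = (N : ℤ) := by
  unfold N
  rw [tsigma_mul (by norm_num) (by norm_num), tsigma_mul (by norm_num) (by norm_num),
    tsigma_mul (by norm_num) (by norm_num), tsigma_mul (by norm_num) (by norm_num),
    tsigma_mul (by norm_num) (by norm_num), tsigma_mul (by norm_num) (by norm_num),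
    tsigma_mul (by norm_num) (by norm_num), tsigma_mul (by norm_num) (by norm_num),
    tsigma_mul (by norm_num) (by norm_num), tsigma_mul (by norm_num) (by norm_num),
    tsigma_mul (by norm_num) (by norm_num), tsigma_mul (by norm_num) (by norm_num),
    tsigma_mul (by norm_num) (by norm_num), tsigma_one]
  decide +kernel

/-- There are `k ≥ 4` and a positive integer `n` with `k * σ~(n) = n`; in fact `k = 4` and
`n = 2^21 * 3^8 * 5^3 * 7 * 11^3 * 13 * 19 * 23 * 31 * 37 * 61 * 89 * 683` work. -/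
theorem result : ∃ k : ℕ, 4 ≤ k ∧ ∃ n : ℕ, 0 < n ∧ (k : ℤ) * tsigma n = (n : ℤ) :=
  ⟨4, le_refl _, N, by decide +kernel, by exact_mod_cast tsigma_N⟩

end Pool.Agent.Results.MP_62401a_nt.RatioFour
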